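import Mathlib

/-!
# Ising Glauber dynamics: the pair of extremal starting states does not maximise total variation

Continuous time heat-bath Glauber dynamics of the ferromagnetic Ising model on a finite simple
graph. There is a connected graph with eight vertices and a vertex `v` such that, for small `t` and
large `β`, the total variation distance at time `t` between the starting states `all plus except v`
and `all minus except v` is larger than between `all plus` and `all minus`.
-/

open Finset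

namespace Pool.Agent.Results.MP_199736_pr.IsingDisproof

section general

variable {V : Type} [Fintype V] [DecidableEq V]

/-- The numerical value of a spin: `true` is `+1` and `false` is `-1`. -/
def spin (b : Bool) : ℝ := if b then 1 else -1

open Classical in
/-- The Gibbs weight `exp (β ∑ σ_i σ_j)`, the sum being over the edges of `G`. -/
noncomputable def weight (G : SimpleGraph V) (β : ℝ) (σ : V → Bool) : ℝ :=
  Real.exp (β * ∑ e ∈ G.edgeFinset,
    Sym2.lift ⟨fun i j => spin (σ i) * spin (σ j), fun _ _ => mul_comm _ _⟩ e)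

/-- The Gibbs probability that the spin at `v` is `b`, given that the other spins are those
of `σ`. -/
noncomputable def condProb (G : SimpleGraph V) (β : ℝ) (v : V) (σ : V → Bool) (b : Bool) : ℝ :=
  weight G β (Function.update σ v b) /
    (weight G β (Function.update σ v true) + weight G β (Function.update σ v false))

/-- The heat-bath update at `v`: the probability to go from `σ` to `τ` when the spin at `v` is
resampled. -/
noncomputable def heatBath (G : SimpleGraph V) (β : ℝ) (v : V) :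
    Matrix (V → Bool) (V → Bool) ℝ :=
  Matrix.of fun σ τ => ∑ b : Bool, if τ = Function.update σ v b then condProb G β v σ b else 0

/-- The generator of the Glauber dynamics: every vertex is updated at rate `1`. -/
noncomputable def gen (G : SimpleGraph V) (β : ℝ) : Matrix (V → Bool) (V → Bool) ℝ :=
  ∑ v, (heatBath G β v - 1)

/-- The transition kernel `P^t = exp (t L)`; `P G β t σ` is the law at time `t` when the starting
state is `σ`. -/
noncomputable def P (G : SimpleGraph V) (β t : ℝ) : Matrix (V → Bool) (V → Bool) ℝ :=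
  NormedSpace.exp (t • gen G β)

/-- Total variation distance `max_{A ⊆ Ω} |μ(A) - ν(A)|` on a finite set. -/
noncomputable def tv {Ω : Type} [Fintype Ω] [DecidableEq Ω] (μ ν : Ω → ℝ) : ℝ :=
  (Finset.univ : Finset (Finset Ω)).sup' ⟨∅, Finset.mem_univ ∅⟩
    (fun A => |∑ z ∈ A, μ z - ∑ z ∈ A, ν z|)

/-! ### The local field -/

/-- integer value of a spin -/
def sg (b : Bool) : ℤ := if b then 1 else -1

theorem spin_eq (b : Bool) : spin b = (sg b : ℝ) := by
  cases b <;> simp [spin, sg]

open Classical in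
/-- the local field -/
noncomputable def field (G : SimpleGraph V) (σ : V → Bool) (v : V) : ℤ :=
  ∑ w, if G.Adj v w then sg (σ w) else 0

/-- the energy cost of setting the spin at `v` to `b` -/
noncomputable def cost (G : SimpleGraph V) (σ : V → Bool) (v : V) (b : Bool) : ℕ :=
  (-(sg b * field G σ v)).toNat

open Classical in
theorem energy_update (G : SimpleGraph V) (σ : V → Bool) (v : V) :
    (∑ e ∈ G.edgeFinset, Sym2.lift ⟨fun i j => spin (Function.update σ v true i) *
        spin (Function.update σ v true j), fun _ _ => mul_comm _ _⟩ e) -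
      (∑ e ∈ G.edgeFinset, Sym2.lift ⟨fun i j => spin (Function.update σ v false i) *
        spin (Function.update σ v false j), fun _ _ => mul_comm _ _⟩ e) =
      2 * (field G σ v : ℝ) := by
  rw [← Finset.sum_sub_distrib]
  have h1 : ∀ e ∈ G.edgeFinset, e ∉ G.incidenceFinset v →
      (Sym2.lift ⟨fun i j => spin (Function.update σ v true i) *
        spin (Function.update σ v true j), fun _ _ => mul_comm _ _⟩ e : ℝ) -
      Sym2.lift ⟨fun i j => spin (Function.update σ v false i) *
        spin (Function.update σ v false j), fun _ _ => mul_comm _ _⟩ e = 0 := by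
    intro e he hv
    induction e using Sym2.ind with
    | _ i j =>
      rw [SimpleGraph.incidenceFinset_eq_filter, Finset.mem_filter] at hv
      have h2 : v ∉ s(i, j) := fun h => hv ⟨he, h⟩
      rw [Sym2.mem_iff, not_or] at h2
      simp only [Sym2.lift_mk]
      rw [Function.update_of_ne (Ne.symm h2.1), Function.update_of_ne (Ne.symm h2.2),
        Function.update_of_ne (Ne.symm h2.1), Function.update_of_ne (Ne.symm h2.2), sub_self]
  have h3 : G.incidenceFinset v ⊆ G.edgeFinset := G.incidenceFinset_subset v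
  rw [← Finset.sum_subset h3 h1]
  have h4 : G.incidenceFinset v = (G.neighborFinset v).image (fun w => s(v, w)) := by
    ext e
    induction e using Sym2.ind with
    | _ i j =>
      simp only [SimpleGraph.mem_incidenceFinset, SimpleGraph.mk'_mem_incidenceSet_iff,
        Finset.mem_image, SimpleGraph.mem_neighborFinset]
      constructor
      · rintro ⟨h, rfl | rfl⟩
        · exact ⟨j, h, rfl⟩
        · exact ⟨i, h.symm, Sym2.eq_swap⟩
      · rintro ⟨w, hw, h⟩
        rw [Sym2.eq_iff] at h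
        rcases h with ⟨rfl, rfl⟩ | ⟨rfl, rfl⟩
        · exact ⟨hw, Or.inl rfl⟩
        · exact ⟨hw.symm, Or.inr rfl⟩
  rw [h4, Finset.sum_image]
  · have h5 : ∀ w ∈ G.neighborFinset v,
        (Sym2.lift ⟨fun i j => spin (Function.update σ v true i) *
          spin (Function.update σ v true j), fun _ _ => mul_comm _ _⟩ s(v, w) : ℝ) -
        Sym2.lift ⟨fun i j => spin (Function.update σ v false i) *
          spin (Function.update σ v false j), fun _ _ => mul_comm _ _⟩ s(v, w) =
        2 * (sg (σ w) : ℝ) := by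
      intro w hw
      rw [SimpleGraph.mem_neighborFinset] at hw
      have h6 : w ≠ v := hw.ne'
      simp only [Sym2.lift_mk]
      rw [Function.update_self, Function.update_self, Function.update_of_ne h6,
        Function.update_of_ne h6, spin_eq, spin_eq, spin_eq]
      cases σ w <;> simp [sg] <;> norm_num
    rw [Finset.sum_congr rfl h5, ← Finset.mul_sum]
    congr 1
    rw [field]
    push_cast
    rw [Finset.sum_ite, Finset.sum_const_zero, add_zero]
    refine Finset.sum_congr ?_ fun _ _ => rfl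
    ext w
    simp
  · intro a _ b _ h
    have h' : s(v, a) = s(v, b) := h
    rw [Sym2.eq_iff] at h'
    rcases h' with ⟨_, h⟩ | ⟨h1, h2⟩
    · exact h
    · rw [← h1, ← h2]

theorem weight_pos (G : SimpleGraph V) (β : ℝ) (σ : V → Bool) : 0 < weight G β σ :=
  Real.exp_pos _

theorem condProb_eq (G : SimpleGraph V) (β : ℝ) (v : V) (σ : V → Bool) (b : Bool) :
    condProb G β v σ b = 1 / (1 + Real.exp (-(2 * β * ((sg b * field G σ v : ℤ) : ℝ)))) := by
  classical
  have h := energy_update G σ v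
  have hw : weight G β (Function.update σ v true) =
      weight G β (Function.update σ v false) * Real.exp (2 * β * (field G σ v : ℝ)) := by
    unfold weight
    rw [← Real.exp_add]
    congr 1
    rw [sub_eq_iff_eq_add] at h
    rw [h]
    ring
  have hpos := weight_pos G β (Function.update σ v false)
  have hne := hpos.ne'
  cases b
  · rw [condProb, hw]
    have e1 : -(2 * β * ((sg false * field G σ v : ℤ) : ℝ)) = 2 * β * (field G σ v : ℝ) := by
      simp [sg]
    rw [e1, div_eq_div_iff (by positivity) (by positivity)]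
    ring
  · rw [condProb, hw]
    have e1 : -(2 * β * ((sg true * field G σ v : ℤ) : ℝ)) = -(2 * β * (field G σ v : ℝ)) := by
      simp [sg]
    rw [e1, Real.exp_neg, div_eq_div_iff (by positivity) (by positivity)]
    have h2 : Real.exp (2 * β * (field G σ v : ℝ)) ≠ 0 := (Real.exp_pos _).ne'
    field_simp

theorem condProb_pos (G : SimpleGraph V) (β : ℝ) (v : V) (σ : V → Bool) (b : Bool) :
    0 < condProb G β v σ b := by
  rw [condProb_eq]
  positivity

theorem condProb_sum (G : SimpleGraph V) (β : ℝ) (v : V) (σ : V → Bool) :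
    condProb G β v σ true + condProb G β v σ false = 1 := by
  unfold condProb
  rw [← add_div]
  exact div_self (add_pos (weight_pos _ _ _) (weight_pos _ _ _)).ne'

theorem condProb_le_one (G : SimpleGraph V) (β : ℝ) (v : V) (σ : V → Bool) (b : Bool) :
    condProb G β v σ b ≤ 1 := by
  have h := condProb_sum G β v σ
  have h1 := condProb_pos G β v σ true
  have h2 := condProb_pos G β v σ false
  cases b <;> linarith

/-- `ε ^ k / 2 ≤ 1 / (1 + exp (- 2 β a)) ≤ ε ^ k`, `k` the negative part of `a` -/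
theorem sigmoid_bounds {β : ℝ} (hβ : 0 ≤ β) (a : ℤ) :
    Real.exp (-2 * β) ^ (-a).toNat / 2 ≤ 1 / (1 + Real.exp (-(2 * β * (a : ℝ)))) ∧
      1 / (1 + Real.exp (-(2 * β * (a : ℝ)))) ≤ Real.exp (-2 * β) ^ (-a).toNat := by
  rcases le_total 0 a with ha | ha
  · have h0 : (-a).toNat = 0 := by omega
    have ha' : (0 : ℝ) ≤ a := by exact_mod_cast ha
    have h1 : Real.exp (-(2 * β * (a : ℝ))) ≤ 1 := by
      rw [Real.exp_le_one_iff]
      have : 0 ≤ β * (a : ℝ) := mul_nonneg hβ ha'
      linarith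
    have h2 := Real.exp_pos (-(2 * β * (a : ℝ)))
    rw [h0, pow_zero]
    constructor
    · rw [div_le_div_iff₀ (by norm_num) (by linarith)]
      linarith
    · rw [div_le_one (by linarith)]
      linarith
  · obtain ⟨k, hk⟩ : ∃ k : ℕ, a = -(k : ℤ) := ⟨(-a).toNat, by omega⟩
    have h0 : (-a).toNat = k := by omega
    have h1 : Real.exp (-(2 * β * (a : ℝ))) = (Real.exp (-2 * β) ^ k)⁻¹ := by
      rw [← Real.exp_nat_mul, ← Real.exp_neg]
      congr 1
      rw [hk]
      push_cast
      ring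
    have hp : 0 < Real.exp (-2 * β) ^ k := by positivity
    have hle : Real.exp (-2 * β) ^ k ≤ 1 := by
      apply pow_le_one₀ (Real.exp_pos _).le
      rw [Real.exp_le_one_iff]
      linarith
    rw [h0, h1]
    have h2 : 1 / (1 + (Real.exp (-2 * β) ^ k)⁻¹) =
        Real.exp (-2 * β) ^ k / (Real.exp (-2 * β) ^ k + 1) := by
      have hne := hp.ne'
      field_simp
    rw [h2]
    constructor
    · rw [div_le_div_iff₀ (by norm_num) (by linarith)]
      nlinarith
    · rw [div_le_iff₀ (by linarith)]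
      nlinarith

theorem condProb_le (G : SimpleGraph V) {β : ℝ} (hβ : 0 ≤ β) (v : V) (σ : V → Bool) (b : Bool) :
    condProb G β v σ b ≤ Real.exp (-2 * β) ^ cost G σ v b := by
  rw [condProb_eq]
  exact (sigmoid_bounds hβ _).2

theorem condProb_ge (G : SimpleGraph V) {β : ℝ} (hβ : 0 ≤ β) (v : V) (σ : V → Bool) (b : Bool) :
    Real.exp (-2 * β) ^ cost G σ v b / 2 ≤ condProb G β v σ b := by
  rw [condProb_eq]
  exact (sigmoid_bounds hβ _).1

/-! ### Exponentials of nonnegative matrices -/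

section matrix

variable {Ω : Type} [Fintype Ω] [DecidableEq Ω]

theorem exp_hasSum (A : Matrix Ω Ω ℝ) :
    HasSum (fun k : ℕ => ((k.factorial : ℝ)⁻¹) • A ^ k) (NormedSpace.exp A) := by
  let _ : SeminormedRing (Matrix Ω Ω ℝ) := Matrix.linftyOpSemiNormedRing
  let _ : NormedRing (Matrix Ω Ω ℝ) := Matrix.linftyOpNormedRing
  let _ : NormedAlgebra ℝ (Matrix Ω Ω ℝ) := Matrix.linftyOpNormedAlgebra
  exact NormedSpace.exp_series_hasSum_exp' (𝕂 := ℝ) A

theorem exp_apply_hasSum (A : Matrix Ω Ω ℝ) (i j : Ω) :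
    HasSum (fun k : ℕ => ((k.factorial : ℝ)⁻¹) * (A ^ k) i j) (NormedSpace.exp A i j) :=
  Pi.hasSum.1 (Pi.hasSum.1 (exp_hasSum A) i) j

theorem exp_mulVec_hasSum (A : Matrix Ω Ω ℝ) (W : Ω → ℝ) (i : Ω) :
    HasSum (fun k : ℕ => ((k.factorial : ℝ)⁻¹) * (A ^ k).mulVec W i)
      ((NormedSpace.exp A).mulVec W i) := by
  have h1 : ∀ j, HasSum (fun k : ℕ => ((k.factorial : ℝ)⁻¹) * (A ^ k) i j * W j)
      (NormedSpace.exp A i j * W j) := fun j => (exp_apply_hasSum A i j).mul_right (W j)
  have h2 := hasSum_sum (s := (Finset.univ : Finset Ω)) (fun j _ => h1 j)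
  have e1 : (NormedSpace.exp A).mulVec W i = ∑ j, NormedSpace.exp A i j * W j := rfl
  have e2 : (fun k : ℕ => ((k.factorial : ℝ)⁻¹) * (A ^ k).mulVec W i) =
      fun k : ℕ => ∑ j, ((k.factorial : ℝ)⁻¹) * (A ^ k) i j * W j := by
    funext k
    have e3 : (A ^ k).mulVec W i = ∑ j, (A ^ k) i j * W j := rfl
    rw [e3, Finset.mul_sum]
    exact Finset.sum_congr rfl fun j _ => (mul_assoc _ _ _).symm
  rw [e1, e2]
  exact h2

theorem pow_nonneg' {A : Matrix Ω Ω ℝ} (hA : ∀ i j, 0 ≤ A i j) (k : ℕ) (i j : Ω) :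
    0 ≤ (A ^ k) i j := by
  induction k generalizing i j with
  | zero =>
    rw [pow_zero, Matrix.one_apply]
    split_ifs <;> norm_num
  | succ k ih =>
    rw [pow_succ, Matrix.mul_apply]
    exact Finset.sum_nonneg fun l _ => mul_nonneg (ih i l) (hA l j)

theorem mulVec_mono {A : Matrix Ω Ω ℝ} (hA : ∀ i j, 0 ≤ A i j) {W W' : Ω → ℝ}
    (h : ∀ i, W i ≤ W' i) (i : Ω) : A.mulVec W i ≤ A.mulVec W' i :=
  Finset.sum_le_sum fun j _ => mul_le_mul_of_nonneg_left (h j) (hA i j)

theorem exp_nonneg {A : Matrix Ω Ω ℝ} (hA : ∀ i j, 0 ≤ A i j) (i j : Ω) :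
    0 ≤ NormedSpace.exp A i j :=
  (exp_apply_hasSum A i j).nonneg fun k => mul_nonneg (by positivity) (pow_nonneg' hA k i j)

theorem le_exp_apply {A : Matrix Ω Ω ℝ} (hA : ∀ i j, 0 ≤ A i j) (k : ℕ) (i j : Ω) :
    ((k.factorial : ℝ)⁻¹) * (A ^ k) i j ≤ NormedSpace.exp A i j :=
  le_hasSum (exp_apply_hasSum A i j) k fun l _ =>
    mul_nonneg (by positivity) (pow_nonneg' hA l i j)

theorem exp_mulVec_le {A : Matrix Ω Ω ℝ} (hA : ∀ i j, 0 ≤ A i j) {W : Ω → ℝ} {c : ℝ}
    (hc : 0 ≤ c) (h : ∀ i, A.mulVec W i ≤ c * W i) (i : Ω) :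
    (NormedSpace.exp A).mulVec W i ≤ Real.exp c * W i := by
  have h1 : ∀ (k : ℕ) (i : Ω), (A ^ k).mulVec W i ≤ c ^ k * W i := by
    intro k
    induction k with
    | zero => intro i; simp
    | succ k ih =>
      intro i
      rw [pow_succ', ← Matrix.mulVec_mulVec]
      calc A.mulVec ((A ^ k).mulVec W) i ≤ A.mulVec (c ^ k • W) i :=
            mulVec_mono hA (fun j => by simpa using ih j) i
        _ = c ^ k * A.mulVec W i := by
            rw [Matrix.mulVec_smul]; rfl
        _ ≤ c ^ k * (c * W i) := mul_le_mul_of_nonneg_left (h i) (by positivity)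
        _ = c ^ (k + 1) * W i := by ring
  have h2 : HasSum (fun k : ℕ => (c ^ k / (k.factorial : ℝ)) * W i) (Real.exp c * W i) := by
    rw [Real.exp_eq_exp_ℝ]
    exact (NormedSpace.expSeries_div_hasSum_exp (c : ℝ)).mul_right (W i)
  refine hasSum_le (fun k => ?_) (exp_mulVec_hasSum A W i) h2
  calc ((k.factorial : ℝ)⁻¹) * (A ^ k).mulVec W i ≤ ((k.factorial : ℝ)⁻¹) * (c ^ k * W i) :=
        mul_le_mul_of_nonneg_left (h1 k i) (by positivity)
    _ = (c ^ k / (k.factorial : ℝ)) * W i := by ring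

theorem exp_mulVec_eq {A : Matrix Ω Ω ℝ} {W : Ω → ℝ} {c : ℝ}
    (h : A.mulVec W = c • W) : (NormedSpace.exp A).mulVec W = Real.exp c • W := by
  funext i
  have h1 : ∀ (k : ℕ), (A ^ k).mulVec W = c ^ k • W := by
    intro k
    induction k with
    | zero => simp
    | succ k ih =>
      rw [pow_succ', ← Matrix.mulVec_mulVec, ih, Matrix.mulVec_smul, h, smul_smul, pow_succ]
  have h2 : HasSum (fun k : ℕ => (c ^ k / (k.factorial : ℝ)) * W i) (Real.exp c * W i) := by
    rw [Real.exp_eq_exp_ℝ]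
    exact (NormedSpace.expSeries_div_hasSum_exp (c : ℝ)).mul_right (W i)
  have h3 := exp_mulVec_hasSum A W i
  have e2 : (fun k : ℕ => ((k.factorial : ℝ)⁻¹) * (A ^ k).mulVec W i) =
      fun k : ℕ => (c ^ k / (k.factorial : ℝ)) * W i := by
    funext k
    rw [h1 k]
    have : (c ^ k • W) i = c ^ k * W i := rfl
    rw [this]
    ring
  rw [e2] at h3
  exact h3.unique h2

theorem exp_smul_one (c : ℝ) :
    NormedSpace.exp (c • (1 : Matrix Ω Ω ℝ)) = Real.exp c • (1 : Matrix Ω Ω ℝ) := by
  rw [Matrix.smul_one_eq_diagonal, Matrix.exp_diagonal, Matrix.smul_one_eq_diagonal]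
  congr 1
  funext i
  rw [Pi.coe_exp, Real.exp_eq_exp_ℝ]

end matrix

/-! ### Total variation -/

section tvd

variable {Ω : Type} [Fintype Ω] [DecidableEq Ω]

theorem sub_le_tv (μ ν : Ω → ℝ) (A : Finset Ω) : ∑ z ∈ A, μ z - ∑ z ∈ A, ν z ≤ tv μ ν := by
  unfold tv
  refine le_trans (le_abs_self _) ?_
  exact Finset.le_sup' (fun A => |∑ z ∈ A, μ z - ∑ z ∈ A, ν z|) (Finset.mem_univ A)

/-- a common mass at one point bounds the total variation distance away from `1` -/
theorem tv_le_one_sub {μ ν : Ω → ℝ} (hμ : ∀ z, 0 ≤ μ z) (hν : ∀ z, 0 ≤ ν z)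
    (hμ1 : ∑ z, μ z = 1) (hν1 : ∑ z, ν z = 1) {m : ℝ} {z : Ω} (h1 : m ≤ μ z) (h2 : m ≤ ν z) :
    tv μ ν ≤ 1 - m := by
  have key : ∀ (f g : Ω → ℝ), (∀ z, 0 ≤ f z) → (∀ z, 0 ≤ g z) → ∑ z, f z = 1 → ∑ z, g z = 1 →
      m ≤ f z → m ≤ g z → ∀ A : Finset Ω, ∑ z ∈ A, f z - ∑ z ∈ A, g z ≤ 1 - m := by
    intro f g hf hg hf1 hg1 hfm hgm A
    by_cases hz : z ∈ A
    · have h3 : ∑ z ∈ A, f z ≤ 1 := by
        rw [← hf1]
        exact Finset.sum_le_sum_of_subset_of_nonneg (Finset.subset_univ A) fun i _ _ => hf i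
      have h4 : g z ≤ ∑ z ∈ A, g z := Finset.single_le_sum (fun i _ => hg i) hz
      linarith
    · have h3 : ∑ w ∈ insert z A, f w ≤ 1 := by
        rw [← hf1]
        exact Finset.sum_le_sum_of_subset_of_nonneg (Finset.subset_univ _) fun i _ _ => hf i
      rw [Finset.sum_insert hz] at h3
      have h4 : 0 ≤ ∑ z ∈ A, g z := Finset.sum_nonneg fun i _ => hg i
      linarith
  unfold tv
  refine Finset.sup'_le _ _ fun A _ => ?_
  rw [abs_le]
  have h5 := key μ ν hμ hν hμ1 hν1 h1 h2 A
  have h6 := key ν μ hν hμ hν1 hμ1 h2 h1 A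
  constructor <;> linarith

end tvd

/-! ### The semigroup -/

/-- the sum of the update kernels -/
noncomputable def Q (G : SimpleGraph V) (β : ℝ) : Matrix (V → Bool) (V → Bool) ℝ :=
  ∑ v, heatBath G β v

theorem heatBath_nonneg (G : SimpleGraph V) (β : ℝ) (v : V) (σ τ : V → Bool) :
    0 ≤ heatBath G β v σ τ := by
  unfold heatBath
  rw [Matrix.of_apply]
  refine Finset.sum_nonneg fun b _ => ?_
  split_ifs
  · exact (condProb_pos G β v σ b).le
  · exact le_rfl

theorem Q_nonneg (G : SimpleGraph V) (β : ℝ) (σ τ : V → Bool) : 0 ≤ Q G β σ τ := by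
  unfold Q
  rw [Matrix.sum_apply]
  exact Finset.sum_nonneg fun v _ => heatBath_nonneg G β v σ τ

theorem heatBath_mulVec (G : SimpleGraph V) (β : ℝ) (v : V) (W : (V → Bool) → ℝ)
    (σ : V → Bool) : (heatBath G β v).mulVec W σ =
      condProb G β v σ true * W (Function.update σ v true) +
        condProb G β v σ false * W (Function.update σ v false) := by
  have e1 : (heatBath G β v).mulVec W σ = ∑ τ, heatBath G β v σ τ * W τ := rfl
  rw [e1]
  unfold heatBath
  simp only [Matrix.of_apply, Fintype.sum_bool, add_mul, ite_mul, zero_mul]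
  rw [Finset.sum_add_distrib]
  simp

theorem Q_mulVec (G : SimpleGraph V) (β : ℝ) (W : (V → Bool) → ℝ) (σ : V → Bool) :
    (Q G β).mulVec W σ = ∑ v, (condProb G β v σ true * W (Function.update σ v true) +
        condProb G β v σ false * W (Function.update σ v false)) := by
  unfold Q
  rw [Matrix.sum_mulVec, Finset.sum_apply]
  exact Finset.sum_congr rfl fun v _ => heatBath_mulVec G β v W σ

theorem gen_eq (G : SimpleGraph V) (β : ℝ) :
    gen G β = Q G β - (Fintype.card V : ℝ) • (1 : Matrix (V → Bool) (V → Bool) ℝ) := by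
  unfold gen Q
  rw [Finset.sum_sub_distrib, Finset.sum_const, Finset.card_univ, Nat.cast_smul_eq_nsmul]

theorem P_eq (G : SimpleGraph V) (β t : ℝ) :
    P G β t = Real.exp (-(t * Fintype.card V)) • NormedSpace.exp (t • Q G β) := by
  unfold P
  have h1 : t • gen G β = t • Q G β + (-(t * Fintype.card V)) •
      (1 : Matrix (V → Bool) (V → Bool) ℝ) := by
    rw [gen_eq, smul_sub, smul_smul, neg_smul, sub_eq_add_neg]
  rw [h1, Matrix.exp_add_of_commute, exp_smul_one, mul_smul_comm, mul_one]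
  exact (Commute.one_right _).smul_right _

theorem tQ_nonneg (G : SimpleGraph V) (β : ℝ) {t : ℝ} (ht : 0 ≤ t) (σ τ : V → Bool) :
    0 ≤ (t • Q G β) σ τ := mul_nonneg ht (Q_nonneg G β σ τ)

theorem P_nonneg (G : SimpleGraph V) (β : ℝ) {t : ℝ} (ht : 0 ≤ t) (σ τ : V → Bool) :
    0 ≤ P G β t σ τ := by
  rw [P_eq]
  exact mul_nonneg (Real.exp_pos _).le (exp_nonneg (tQ_nonneg G β ht) σ τ)

theorem P_mulVec_le (G : SimpleGraph V) (β : ℝ) {t : ℝ} (ht : 0 ≤ t) {W : (V → Bool) → ℝ}
    {c : ℝ} (hc : 0 ≤ c) (h : ∀ σ, (Q G β).mulVec W σ ≤ c * W σ) (σ : V → Bool) :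
    (P G β t).mulVec W σ ≤ Real.exp (t * c - t * Fintype.card V) * W σ := by
  rw [P_eq, Matrix.smul_mulVec, Pi.smul_apply, smul_eq_mul, sub_eq_neg_add, Real.exp_add,
    mul_assoc]
  refine mul_le_mul_of_nonneg_left ?_ (Real.exp_pos _).le
  refine exp_mulVec_le (tQ_nonneg G β ht) (mul_nonneg ht hc) (fun τ => ?_) σ
  rw [Matrix.smul_mulVec, Pi.smul_apply, smul_eq_mul, mul_assoc]
  exact mul_le_mul_of_nonneg_left (h τ) ht

theorem P_sum (G : SimpleGraph V) (β t : ℝ) (σ : V → Bool) : ∑ τ, P G β t σ τ = 1 := by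
  have h1 : (Q G β).mulVec 1 = (Fintype.card V : ℝ) • (1 : (V → Bool) → ℝ) := by
    funext τ
    rw [Q_mulVec]
    simp [condProb_sum]
  have h2 : (t • Q G β).mulVec 1 = (t * Fintype.card V) • (1 : (V → Bool) → ℝ) := by
    rw [Matrix.smul_mulVec, h1, smul_smul]
  have h3 := exp_mulVec_eq h2
  have h4 : ∑ τ, P G β t σ τ = (P G β t).mulVec 1 σ := by
    have e1 : (P G β t).mulVec 1 σ = ∑ τ, P G β t σ τ * 1 := rfl
    rw [e1]
    simp
  rw [h4, P_eq, Matrix.smul_mulVec, h3, smul_smul, ← Real.exp_add, neg_add_cancel, Real.exp_zero,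
    one_smul]
  rfl

/-- one step along a path -/
theorem Q_apply_ge (G : SimpleGraph V) (β : ℝ) (v : V) (σ : V → Bool) (b : Bool) :
    condProb G β v σ b ≤ Q G β σ (Function.update σ v b) := by
  unfold Q
  rw [Matrix.sum_apply]
  refine le_trans ?_ (Finset.single_le_sum
    (fun w _ => heatBath_nonneg G β w σ (Function.update σ v b)) (Finset.mem_univ v))
  unfold heatBath
  rw [Matrix.of_apply]
  have h1 := Finset.single_le_sum (f := fun b' : Bool =>
    if Function.update σ v b = Function.update σ v b' then condProb G β v σ b' else 0)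
    (fun b' _ => by
      split_ifs
      · exact (condProb_pos G β v σ b').le
      · exact le_rfl) (Finset.mem_univ b)
  simpa using h1

/-- the final state of a path of updates -/
def run (σ : V → Bool) : List (V × Bool) → (V → Bool)
  | [] => σ
  | (v, b) :: l => run (Function.update σ v b) l

/-- the total cost of a path of updates -/
noncomputable def pathCost (G : SimpleGraph V) (σ : V → Bool) : List (V × Bool) → ℕ
  | [] => 0
  | (v, b) :: l => cost G σ v b + pathCost G (Function.update σ v b) l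

theorem Q_pow_ge (G : SimpleGraph V) {β : ℝ} (hβ : 0 ≤ β) (l : List (V × Bool))
    (σ : V → Bool) : Real.exp (-2 * β) ^ pathCost G σ l / 2 ^ l.length ≤
      (Q G β ^ l.length) σ (run σ l) := by
  induction l generalizing σ with
  | nil => simp [pathCost, run]
  | cons a l ih =>
    obtain ⟨v, b⟩ := a
    rw [List.length_cons, pow_succ' (Q G β), Matrix.mul_apply, pathCost, run, pow_add, pow_succ,
      mul_comm (2 ^ l.length) (2 : ℝ), mul_div_mul_comm]
    refine le_trans ?_ (Finset.single_le_sum (f := fun τ => Q G β σ τ *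
      (Q G β ^ l.length) τ (run (Function.update σ v b) l)) (fun τ _ => mul_nonneg
        (Q_nonneg G β σ τ) (pow_nonneg' (Q_nonneg G β) _ _ _))
        (Finset.mem_univ (Function.update σ v b)))
    refine mul_le_mul ((condProb_ge G hβ v σ b).trans (Q_apply_ge G β v σ b))
      (ih (Function.update σ v b)) (by positivity) (Q_nonneg G β _ _)

theorem P_apply_ge (G : SimpleGraph V) {β : ℝ} (hβ : 0 ≤ β) {t : ℝ} (ht : 0 ≤ t)
    (l : List (V × Bool)) (σ : V → Bool) :
    Real.exp (-(t * Fintype.card V)) * (((l.length.factorial : ℝ)⁻¹) * (t ^ l.length *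
      (Real.exp (-2 * β) ^ pathCost G σ l / 2 ^ l.length))) ≤ P G β t σ (run σ l) := by
  rw [P_eq, Matrix.smul_apply, smul_eq_mul]
  refine mul_le_mul_of_nonneg_left ?_ (Real.exp_pos _).le
  refine le_trans ?_ (le_exp_apply (tQ_nonneg G β ht) l.length σ (run σ l))
  refine mul_le_mul_of_nonneg_left ?_ (by positivity)
  rw [smul_pow, Matrix.smul_apply, smul_eq_mul]
  exact mul_le_mul_of_nonneg_left (Q_pow_ge G hβ l σ) (by positivity)

/-! ### Upper bounds through potentials -/

/-- `(c, l)` is a potential: lexicographically, one flip changes it by at most the cost and `1`. -/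
def IsPot (G : SimpleGraph V) (c l : (V → Bool) → ℕ) : Prop :=
  ∀ σ v, c σ < cost G σ v (!σ v) + c (Function.update σ v (!σ v)) ∨
    (c σ = cost G σ v (!σ v) + c (Function.update σ v (!σ v)) ∧
      l σ ≤ 1 + l (Function.update σ v (!σ v)))

theorem P_sum_le (G : SimpleGraph V) {β : ℝ} (hβ : 0 ≤ β) {t : ℝ} (ht : 0 < t) (ht1 : t ≤ 1)
    {M : ℕ} (hM : Real.exp (-2 * β) ≤ t ^ M) {c l : (V → Bool) → ℕ} (hl : ∀ σ, l σ ≤ M)
    (hpot : IsPot G c l) {A : Finset (V → Bool)} (hA : ∀ σ ∈ A, c σ = 0 ∧ l σ = 0)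
    (σ : V → Bool) :
    ∑ τ ∈ A, P G β t σ τ ≤
      Real.exp (Fintype.card V) * (Real.exp (-2 * β) ^ c σ * t ^ l σ) := by
  set ε := Real.exp (-2 * β) with hε
  have hε0 : 0 < ε := Real.exp_pos _
  have hε1 : ε ≤ 1 := by
    rw [hε, Real.exp_le_one_iff]
    linarith
  set W : (V → Bool) → ℝ := fun τ => ε ^ c τ * t ^ l τ with hW
  have hW0 : ∀ τ, 0 < W τ := fun τ => by positivity
  have hstep : ∀ τ v, ε ^ cost G τ v (!τ v) * W (Function.update τ v (!τ v)) ≤ W τ / t := by
    intro τ v
    rw [le_div_iff₀ ht]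
    have e1 : ε ^ cost G τ v (!τ v) * W (Function.update τ v (!τ v)) * t =
        ε ^ (cost G τ v (!τ v) + c (Function.update τ v (!τ v))) *
          t ^ (1 + l (Function.update τ v (!τ v))) := by
      simp only [hW]
      rw [pow_add, pow_add, pow_one]
      ring
    rw [e1]
    rcases hpot τ v with h | ⟨h1, h2⟩
    · calc ε ^ (cost G τ v (!τ v) + c (Function.update τ v (!τ v))) *
            t ^ (1 + l (Function.update τ v (!τ v))) ≤ ε ^ (c τ + 1) * 1 :=
            mul_le_mul (pow_le_pow_of_le_one hε0.le hε1 h) (pow_le_one₀ ht.le ht1)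
              (by positivity) (by positivity)
        _ = ε ^ c τ * ε := by rw [mul_one, pow_succ]
        _ ≤ ε ^ c τ * t ^ M := mul_le_mul_of_nonneg_left hM (by positivity)
        _ ≤ ε ^ c τ * t ^ l τ :=
            mul_le_mul_of_nonneg_left (pow_le_pow_of_le_one ht.le ht1 (hl τ)) (by positivity)
    · rw [← h1]
      exact mul_le_mul_of_nonneg_left (pow_le_pow_of_le_one ht.le ht1 h2) (by positivity)
  have hQ : ∀ τ, (Q G β).mulVec W τ ≤ ((Fintype.card V : ℝ) * (1 + 1 / t)) * W τ := by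
    intro τ
    rw [Q_mulVec]
    have hv : ∀ v ∈ (Finset.univ : Finset V), condProb G β v τ true * W (Function.update τ v true) +
        condProb G β v τ false * W (Function.update τ v false) ≤ (1 + 1 / t) * W τ := by
      intro v _
      have h1 : condProb G β v τ (τ v) * W (Function.update τ v (τ v)) ≤ W τ := by
        rw [Function.update_eq_self]
        exact mul_le_of_le_one_left (hW0 τ).le (condProb_le_one G β v τ _)
      have h2 : condProb G β v τ (!τ v) * W (Function.update τ v (!τ v)) ≤ W τ / t :=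
        le_trans (mul_le_mul_of_nonneg_right (condProb_le G hβ v τ (!τ v)) (hW0 _).le)
          (hstep τ v)
      have h3 : (1 + 1 / t) * W τ = W τ + W τ / t := by ring
      rw [h3]
      cases hb : τ v
      · rw [hb] at h1 h2
        simp only [Bool.not_false] at h2
        linarith
      · rw [hb] at h1 h2
        simp only [Bool.not_true] at h2
        linarith
    refine le_trans (Finset.sum_le_sum hv) ?_
    rw [Finset.sum_const, Finset.card_univ, nsmul_eq_mul, mul_assoc]
  have h4 := P_mulVec_le G β ht.le (W := W) (c := (Fintype.card V : ℝ) * (1 + 1 / t))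
    (by positivity) hQ σ
  have e2 : t * ((Fintype.card V : ℝ) * (1 + 1 / t)) - t * Fintype.card V = Fintype.card V := by
    field_simp
    ring
  rw [e2] at h4
  refine le_trans ?_ h4
  have e3 : (P G β t).mulVec W σ = ∑ τ, P G β t σ τ * W τ := rfl
  rw [e3]
  calc ∑ τ ∈ A, P G β t σ τ = ∑ τ ∈ A, P G β t σ τ * W τ := by
        refine Finset.sum_congr rfl fun τ hτ => ?_
        obtain ⟨h5, h6⟩ := hA τ hτ
        simp only [hW]
        rw [h5, h6, pow_zero, pow_zero, mul_one, mul_one]
    _ ≤ ∑ τ, P G β t σ τ * W τ :=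
        Finset.sum_le_sum_of_subset_of_nonneg (Finset.subset_univ A)
          fun τ _ _ => mul_nonneg (P_nonneg G β ht.le σ τ) (hW0 τ).le

end general

/-! ### The graph with eight vertices -/

/-- the edges -/
def edges : List (Fin 8 × Fin 8) :=
  [(0, 1), (0, 2), (0, 3), (0, 4), (1, 2), (1, 5), (1, 6), (3, 4), (5, 6), (5, 7), (6, 7)]

/-- the triangles `0 3 4`, `0 1 2` and the two triangles `1 5 6`, `5 6 7` -/
def G8 : SimpleGraph (Fin 8) where
  Adj i j := (i, j) ∈ edges ∨ (j, i) ∈ edges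
  symm := ⟨fun _ _ h => Or.symm h⟩
  loopless := ⟨by decide⟩

instance decG8 : DecidableRel G8.Adj := fun i j =>
  inferInstanceAs (Decidable ((i, j) ∈ edges ∨ (j, i) ∈ edges))

theorem G8_connected : G8.Connected := by
  have h01 : G8.Reachable 0 1 := SimpleGraph.Adj.reachable (by decide)
  have h15 : G8.Reachable 1 5 := SimpleGraph.Adj.reachable (by decide)
  have h : ∀ v : Fin 8, G8.Reachable 0 v := by
    intro v
    fin_cases v
    · exact SimpleGraph.Reachable.refl 0
    · exact h01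
    · exact SimpleGraph.Adj.reachable (by decide)
    · exact SimpleGraph.Adj.reachable (by decide)
    · exact SimpleGraph.Adj.reachable (by decide)
    · exact h01.trans h15
    · exact h01.trans (SimpleGraph.Adj.reachable (by decide))
    · exact (h01.trans h15).trans (SimpleGraph.Adj.reachable (by decide))
  exact ⟨fun u v => (h u).symm.trans (h v)⟩

theorem field_0 (σ : Fin 8 → Bool) : field G8 σ 0 = sg (σ 1) + sg (σ 2) + sg (σ 3) + sg (σ 4) := by
  rw [field, Fin.sum_univ_eight, if_neg (show ¬ G8.Adj 0 0 by decide),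
    if_pos (show G8.Adj 0 1 by decide),
    if_pos (show G8.Adj 0 2 by decide),
    if_pos (show G8.Adj 0 3 by decide),
    if_pos (show G8.Adj 0 4 by decide),
    if_neg (show ¬ G8.Adj 0 5 by decide),
    if_neg (show ¬ G8.Adj 0 6 by decide),
    if_neg (show ¬ G8.Adj 0 7 by decide)]
  ring

theorem field_1 (σ : Fin 8 → Bool) : field G8 σ 1 = sg (σ 0) + sg (σ 2) + sg (σ 5) + sg (σ 6) := by
  rw [field, Fin.sum_univ_eight, if_pos (show G8.Adj 1 0 by decide),
    if_neg (show ¬ G8.Adj 1 1 by decide),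
    if_pos (show G8.Adj 1 2 by decide),
    if_neg (show ¬ G8.Adj 1 3 by decide),
    if_neg (show ¬ G8.Adj 1 4 by decide),
    if_pos (show G8.Adj 1 5 by decide),
    if_pos (show G8.Adj 1 6 by decide),
    if_neg (show ¬ G8.Adj 1 7 by decide)]
  ring

theorem field_2 (σ : Fin 8 → Bool) : field G8 σ 2 = sg (σ 0) + sg (σ 1) := by
  rw [field, Fin.sum_univ_eight, if_pos (show G8.Adj 2 0 by decide),
    if_pos (show G8.Adj 2 1 by decide),
    if_neg (show ¬ G8.Adj 2 2 by decide),
    if_neg (show ¬ G8.Adj 2 3 by decide),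
    if_neg (show ¬ G8.Adj 2 4 by decide),
    if_neg (show ¬ G8.Adj 2 5 by decide),
    if_neg (show ¬ G8.Adj 2 6 by decide),
    if_neg (show ¬ G8.Adj 2 7 by decide)]
  ring

theorem field_3 (σ : Fin 8 → Bool) : field G8 σ 3 = sg (σ 0) + sg (σ 4) := by
  rw [field, Fin.sum_univ_eight, if_pos (show G8.Adj 3 0 by decide),
    if_neg (show ¬ G8.Adj 3 1 by decide),
    if_neg (show ¬ G8.Adj 3 2 by decide),
    if_neg (show ¬ G8.Adj 3 3 by decide),
    if_pos (show G8.Adj 3 4 by decide),
    if_neg (show ¬ G8.Adj 3 5 by decide),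
    if_neg (show ¬ G8.Adj 3 6 by decide),
    if_neg (show ¬ G8.Adj 3 7 by decide)]
  ring

theorem field_4 (σ : Fin 8 → Bool) : field G8 σ 4 = sg (σ 0) + sg (σ 3) := by
  rw [field, Fin.sum_univ_eight, if_pos (show G8.Adj 4 0 by decide),
    if_neg (show ¬ G8.Adj 4 1 by decide),
    if_neg (show ¬ G8.Adj 4 2 by decide),
    if_pos (show G8.Adj 4 3 by decide),
    if_neg (show ¬ G8.Adj 4 4 by decide),
    if_neg (show ¬ G8.Adj 4 5 by decide),
    if_neg (show ¬ G8.Adj 4 6 by decide),
    if_neg (show ¬ G8.Adj 4 7 by decide)]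
  ring

theorem field_5 (σ : Fin 8 → Bool) : field G8 σ 5 = sg (σ 1) + sg (σ 6) + sg (σ 7) := by
  rw [field, Fin.sum_univ_eight, if_neg (show ¬ G8.Adj 5 0 by decide),
    if_pos (show G8.Adj 5 1 by decide),
    if_neg (show ¬ G8.Adj 5 2 by decide),
    if_neg (show ¬ G8.Adj 5 3 by decide),
    if_neg (show ¬ G8.Adj 5 4 by decide),
    if_neg (show ¬ G8.Adj 5 5 by decide),
    if_pos (show G8.Adj 5 6 by decide),
    if_pos (show G8.Adj 5 7 by decide)]
  ring

theorem field_6 (σ : Fin 8 → Bool) : field G8 σ 6 = sg (σ 1) + sg (σ 5) + sg (σ 7) := by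
  rw [field, Fin.sum_univ_eight, if_neg (show ¬ G8.Adj 6 0 by decide),
    if_pos (show G8.Adj 6 1 by decide),
    if_neg (show ¬ G8.Adj 6 2 by decide),
    if_neg (show ¬ G8.Adj 6 3 by decide),
    if_neg (show ¬ G8.Adj 6 4 by decide),
    if_pos (show G8.Adj 6 5 by decide),
    if_neg (show ¬ G8.Adj 6 6 by decide),
    if_pos (show G8.Adj 6 7 by decide)]
  ring

theorem field_7 (σ : Fin 8 → Bool) : field G8 σ 7 = sg (σ 5) + sg (σ 6) := by
  rw [field, Fin.sum_univ_eight, if_neg (show ¬ G8.Adj 7 0 by decide),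
    if_neg (show ¬ G8.Adj 7 1 by decide),
    if_neg (show ¬ G8.Adj 7 2 by decide),
    if_neg (show ¬ G8.Adj 7 3 by decide),
    if_neg (show ¬ G8.Adj 7 4 by decide),
    if_pos (show G8.Adj 7 5 by decide),
    if_pos (show G8.Adj 7 6 by decide),
    if_neg (show ¬ G8.Adj 7 7 by decide)]
  ring

/-- the value of the bit number `w` of `i` -/
def bt (i w : ℕ) : ℕ := i / 2 ^ w % 2

/-- the number of neighbours which are plus -/
def pl (i : ℕ) : ℕ → ℕ
  | 0 => bt i 1 + bt i 2 + bt i 3 + bt i 4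
  | 1 => bt i 0 + bt i 2 + bt i 5 + bt i 6
  | 2 => bt i 0 + bt i 1
  | 3 => bt i 0 + bt i 4
  | 4 => bt i 0 + bt i 3
  | 5 => bt i 1 + bt i 6 + bt i 7
  | 6 => bt i 1 + bt i 5 + bt i 7
  | 7 => bt i 5 + bt i 6
  | _ => 0

/-- the degree -/
def dg : ℕ → ℕ
  | 0 => 4
  | 1 => 4
  | 2 => 2
  | 3 => 2
  | 4 => 2
  | 5 => 3
  | 6 => 3
  | 7 => 2
  | _ => 0

/-- the cost of flipping the spin at `v` -/
def cs (i v : ℕ) : ℕ := if bt i v = 1 then 2 * pl i v - dg v else dg v - 2 * pl i v

/-- the table of the potential -/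
def T : ℕ := 1933250376436567337208772838902065004505409758724885391585840945465261731007983296545626627512900224679652003087291153350011992338689978782868328143791982261087011762915487550724977302558211970197506863581025822881728370488774712243453643787149406158932848887663436659676186058276120292611679250345361508128499493466817916602410921777038125268429711409746790834211801723051546250407595984639603159996737783707234240730750436172159601118086206455785595195726233600

/-- the entry number `i` -/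
def tb (i : ℕ) : ℕ := T / 64 ^ i % 64

/-- the number of a configuration -/
def num (σ : Fin 8 → Bool) : ℕ := Nat.ofBits σ

theorem bt_num (σ : Fin 8 → Bool) (w : Fin 8) : bt (num σ) w = (σ w).toNat := by
  have h := Nat.testBit_ofBits_lt σ w w.2
  rw [Nat.testBit_eq_decide_div_mod_eq] at h
  unfold bt num
  have h2 : Nat.ofBits σ / 2 ^ (w : ℕ) % 2 < 2 := Nat.mod_lt _ (by norm_num)
  cases hb : σ w
  · have h3 : σ ⟨(w : ℕ), w.2⟩ = false := hb
    rw [h3, decide_eq_false_iff_not] at h
    simp only [Bool.toNat_false]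
    omega
  · have h3 : σ ⟨(w : ℕ), w.2⟩ = true := hb
    rw [h3, decide_eq_true_iff] at h
    simp only [Bool.toNat_true]
    exact h

theorem num_lt (σ : Fin 8 → Bool) : num σ < 256 := Nat.ofBits_lt_two_pow σ

theorem num_update (σ : Fin 8 → Bool) (v : Fin 8) :
    num (Function.update σ v (!σ v)) = num σ ^^^ 2 ^ (v : ℕ) := by
  unfold num
  refine Nat.eq_of_testBit_eq fun j => ?_
  rw [Nat.testBit_xor, Nat.testBit_two_pow, Nat.testBit_ofBits, Nat.testBit_ofBits]
  by_cases hj : j < 8
  · rw [dif_pos hj, dif_pos hj]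
    by_cases hv : (⟨j, hj⟩ : Fin 8) = v
    · subst hv
      simp
    · have h2 : (v : ℕ) ≠ j := fun h => hv (Fin.ext h.symm)
      rw [Function.update_of_ne hv]
      simp [h2]
  · rw [dif_neg hj, dif_neg hj]
    have h2 : (v : ℕ) ≠ j := fun h => hj (h ▸ v.2)
    simp [h2]

/-- the global flip -/
def flip (σ : Fin 8 → Bool) : Fin 8 → Bool := fun v => !σ v

theorem num_flip (σ : Fin 8 → Bool) : num (flip σ) = num σ ^^^ 255 := by
  unfold num
  refine Nat.eq_of_testBit_eq fun j => ?_
  have h255 : (255 : ℕ) = 2 ^ 8 - 1 := by norm_num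
  rw [h255, Nat.testBit_xor, Nat.testBit_two_pow_sub_one, Nat.testBit_ofBits, Nat.testBit_ofBits]
  by_cases hj : j < 8
  · rw [dif_pos hj, dif_pos hj]
    simp [flip, hj]
  · rw [dif_neg hj, dif_neg hj]
    simp [hj]

theorem cost_eq (σ : Fin 8 → Bool) (v : Fin 8) : cost G8 σ v (!σ v) = cs (num σ) v := by
  have hb := bt_num σ
  have h0 := hb 0
  have h1 := hb 1
  have h2 := hb 2
  have h3 := hb 3
  have h4 := hb 4
  have h5 := hb 5
  have h6 := hb 6
  have h7 := hb 7
  simp only [Fin.isValue, Fin.coe_ofNat_eq_mod] at h0 h1 h2 h3 h4 h5 h6 h7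
  unfold cost cs
  fin_cases v
  · show (-(sg (!σ 0) * field G8 σ 0)).toNat = if bt (num σ) 0 = 1 then
      2 * (bt (num σ) 1 + bt (num σ) 2 + bt (num σ) 3 + bt (num σ) 4) - 4 else 4 - 2 * (bt (num σ) 1 + bt (num σ) 2 + bt (num σ) 3 + bt (num σ) 4)
    rw [field_0]
    rw [h0, h1, h2, h3, h4]
    revert h0 h1 h2 h3 h4 h5 h6 h7 hb
    intros
    generalize σ 0 = b0
    generalize σ 1 = b1
    generalize σ 2 = b2
    generalize σ 3 = b3
    generalize σ 4 = b4
    revert b0 b1 b2 b3 b4
    decide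
  · show (-(sg (!σ 1) * field G8 σ 1)).toNat = if bt (num σ) 1 = 1 then
      2 * (bt (num σ) 0 + bt (num σ) 2 + bt (num σ) 5 + bt (num σ) 6) - 4 else 4 - 2 * (bt (num σ) 0 + bt (num σ) 2 + bt (num σ) 5 + bt (num σ) 6)
    rw [field_1]
    rw [h0, h1, h2, h5, h6]
    revert h0 h1 h2 h3 h4 h5 h6 h7 hb
    intros
    generalize σ 0 = b0
    generalize σ 1 = b1
    generalize σ 2 = b2
    generalize σ 5 = b5
    generalize σ 6 = b6
    revert b0 b1 b2 b5 b6
    decide
  · show (-(sg (!σ 2) * field G8 σ 2)).toNat = if bt (num σ) 2 = 1 then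
      2 * (bt (num σ) 0 + bt (num σ) 1) - 2 else 2 - 2 * (bt (num σ) 0 + bt (num σ) 1)
    rw [field_2]
    rw [h0, h1, h2]
    revert h0 h1 h2 h3 h4 h5 h6 h7 hb
    intros
    generalize σ 0 = b0
    generalize σ 1 = b1
    generalize σ 2 = b2
    revert b0 b1 b2
    decide
  · show (-(sg (!σ 3) * field G8 σ 3)).toNat = if bt (num σ) 3 = 1 then
      2 * (bt (num σ) 0 + bt (num σ) 4) - 2 else 2 - 2 * (bt (num σ) 0 + bt (num σ) 4)
    rw [field_3]
    rw [h0, h3, h4]
    revert h0 h1 h2 h3 h4 h5 h6 h7 hb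
    intros
    generalize σ 0 = b0
    generalize σ 3 = b3
    generalize σ 4 = b4
    revert b0 b3 b4
    decide
  · show (-(sg (!σ 4) * field G8 σ 4)).toNat = if bt (num σ) 4 = 1 then
      2 * (bt (num σ) 0 + bt (num σ) 3) - 2 else 2 - 2 * (bt (num σ) 0 + bt (num σ) 3)
    rw [field_4]
    rw [h0, h3, h4]
    revert h0 h1 h2 h3 h4 h5 h6 h7 hb
    intros
    generalize σ 0 = b0
    generalize σ 3 = b3
    generalize σ 4 = b4
    revert b0 b3 b4
    decide
  · show (-(sg (!σ 5) * field G8 σ 5)).toNat = if bt (num σ) 5 = 1 then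
      2 * (bt (num σ) 1 + bt (num σ) 6 + bt (num σ) 7) - 3 else 3 - 2 * (bt (num σ) 1 + bt (num σ) 6 + bt (num σ) 7)
    rw [field_5]
    rw [h1, h5, h6, h7]
    revert h0 h1 h2 h3 h4 h5 h6 h7 hb
    intros
    generalize σ 1 = b1
    generalize σ 5 = b5
    generalize σ 6 = b6
    generalize σ 7 = b7
    revert b1 b5 b6 b7
    decide
  · show (-(sg (!σ 6) * field G8 σ 6)).toNat = if bt (num σ) 6 = 1 then
      2 * (bt (num σ) 1 + bt (num σ) 5 + bt (num σ) 7) - 3 else 3 - 2 * (bt (num σ) 1 + bt (num σ) 5 + bt (num σ) 7)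
    rw [field_6]
    rw [h1, h5, h6, h7]
    revert h0 h1 h2 h3 h4 h5 h6 h7 hb
    intros
    generalize σ 1 = b1
    generalize σ 5 = b5
    generalize σ 6 = b6
    generalize σ 7 = b7
    revert b1 b5 b6 b7
    decide
  · show (-(sg (!σ 7) * field G8 σ 7)).toNat = if bt (num σ) 7 = 1 then
      2 * (bt (num σ) 5 + bt (num σ) 6) - 2 else 2 - 2 * (bt (num σ) 5 + bt (num σ) 6)
    rw [field_7]
    rw [h5, h6, h7]
    revert h0 h1 h2 h3 h4 h5 h6 h7 hb
    intros
    generalize σ 5 = b5
    generalize σ 6 = b6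
    generalize σ 7 = b7
    revert b5 b6 b7
    decide

theorem table : ∀ i < 256, ∀ v < 8, (tb i / 16 < cs i v + tb (i ^^^ 2 ^ v) / 16 ∨
    (tb i / 16 = cs i v + tb (i ^^^ 2 ^ v) / 16 ∧ tb i % 16 ≤ 1 + tb (i ^^^ 2 ^ v) % 16)) := by
  decide +kernel

theorem table' : ∀ i < 256, ∀ v < 8,
    (tb (i ^^^ 255) / 16 < cs i v + tb ((i ^^^ 2 ^ v) ^^^ 255) / 16 ∨
    (tb (i ^^^ 255) / 16 = cs i v + tb ((i ^^^ 2 ^ v) ^^^ 255) / 16 ∧
      tb (i ^^^ 255) % 16 ≤ 1 + tb ((i ^^^ 2 ^ v) ^^^ 255) % 16)) := by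
  decide +kernel

theorem tb_le : ∀ i < 256, tb i % 16 ≤ 5 := by
  decide +kernel

theorem zero_or : ∀ i < 256, tb i = 0 ∨ tb (i ^^^ 255) = 0 := by
  decide +kernel

/-- the potential: energy part -/
def potC (σ : Fin 8 → Bool) : ℕ := tb (num σ) / 16

/-- the potential: length part -/
def potL (σ : Fin 8 → Bool) : ℕ := tb (num σ) % 16

theorem isPot1 : IsPot G8 potC potL := by
  intro σ v
  rw [cost_eq]
  unfold potC potL
  rw [num_update]
  exact table (num σ) (num_lt σ) v v.2

theorem isPot2 : IsPot G8 (fun σ => potC (flip σ)) (fun σ => potL (flip σ)) := by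
  intro σ v
  rw [cost_eq]
  unfold potC potL
  simp only [num_flip]
  rw [num_update]
  exact table' (num σ) (num_lt σ) v v.2

theorem potL_le' (σ : Fin 8 → Bool) : potL σ ≤ 5 := tb_le (num σ) (num_lt σ)

/-- all plus -/
def top8 : Fin 8 → Bool := fun _ => true

/-- all minus -/
def bot8 : Fin 8 → Bool := fun _ => false

/-- all plus except the vertex `2` -/
def x8 : Fin 8 → Bool := Function.update top8 2 false

/-- all minus except the vertex `2` -/
def y8 : Fin 8 → Bool := Function.update bot8 2 true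

theorem flip_y : flip y8 = x8 := by
  funext v
  unfold flip y8 x8
  by_cases hv : v = 2
  · rw [hv, Function.update_self, Function.update_self]
    rfl
  · rw [Function.update_of_ne hv, Function.update_of_ne hv]
    rfl

theorem num_x : num x8 = 251 := by decide +kernel

theorem pot_x : potC x8 = 3 ∧ potL x8 = 4 := by
  unfold potC potL
  rw [num_x]
  decide +kernel

theorem pot_y : potC (flip y8) = 3 ∧ potL (flip y8) = 4 := by
  rw [flip_y]
  exact pot_x

/-- the common state: the vertices `5, 6, 7` are plus, the other vertices are minus -/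
def z8 : Fin 8 → Bool := fun v => decide (5 ≤ v)

/-- path from all minus -/
def path1 : List (Fin 8 × Bool) := [(7, true), (5, true), (6, true)]

/-- path from all plus -/
def path2 : List (Fin 8 × Bool) := [(3, false), (4, false), (0, false), (2, false), (1, false)]

theorem run1 : run bot8 path1 = z8 := by
  have h : ∀ v, run bot8 path1 v = z8 v := by decide
  exact funext h

theorem run2 : run top8 path2 = z8 := by
  have h : ∀ v, run top8 path2 v = z8 v := by decide
  exact funext h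

theorem cost1 : pathCost G8 bot8 path1 = 3 := by
  simp only [path1, pathCost, cost, field_5, field_6, field_7]
  decide

theorem cost2 : pathCost G8 top8 path2 = 2 := by
  simp only [path2, pathCost, cost, field_0, field_1, field_2, field_3, field_4]
  decide

theorem main_upper {β : ℝ} (hβ : 0 ≤ β) {t : ℝ} (ht : 0 < t) (ht1 : t ≤ 1)
    (hM : Real.exp (-2 * β) ≤ t ^ 5) :
    1 - tv (P G8 β t x8) (P G8 β t y8) ≤
      2 * (Real.exp 8 * (Real.exp (-2 * β) ^ 3 * t ^ 4)) := by
  classical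
  set A : Finset (Fin 8 → Bool) := Finset.univ.filter fun σ => potC σ = 0 ∧ potL σ = 0 with hA
  set A' : Finset (Fin 8 → Bool) :=
    Finset.univ.filter fun σ => potC (flip σ) = 0 ∧ potL (flip σ) = 0 with hA'
  have h1 : ∑ τ ∈ A, P G8 β t x8 τ ≤ Real.exp 8 * (Real.exp (-2 * β) ^ 3 * t ^ 4) := by
    have h := P_sum_le G8 hβ ht ht1 hM potL_le' isPot1 (A := A)
      (fun σ hσ => (Finset.mem_filter.1 hσ).2) x8
    rw [pot_x.1, pot_x.2] at h
    simpa using h
  have h2 : ∑ τ ∈ A', P G8 β t y8 τ ≤ Real.exp 8 * (Real.exp (-2 * β) ^ 3 * t ^ 4) := by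
    have h := P_sum_le G8 hβ ht ht1 hM (fun σ => potL_le' (flip σ)) isPot2 (A := A')
      (fun σ hσ => (Finset.mem_filter.1 hσ).2) y8
    simp only [pot_y.1, pot_y.2] at h
    simpa using h
  have h3 : ∑ τ ∈ Aᶜ, P G8 β t y8 τ ≤ ∑ τ ∈ A', P G8 β t y8 τ := by
    refine Finset.sum_le_sum_of_subset_of_nonneg (fun σ hσ => ?_)
      fun τ _ _ => P_nonneg G8 β ht.le y8 τ
    rw [Finset.mem_compl, hA, Finset.mem_filter] at hσ
    rw [hA', Finset.mem_filter]
    refine ⟨Finset.mem_univ σ, ?_⟩
    rcases zero_or (num σ) (num_lt σ) with h | h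
    · refine absurd ⟨Finset.mem_univ _, ?_⟩ hσ
      unfold potC potL
      rw [h]
      exact ⟨rfl, rfl⟩
    · unfold potC potL
      rw [num_flip, h]
      exact ⟨rfl, rfl⟩
  have h4 : ∑ τ ∈ A, P G8 β t x8 τ + ∑ τ ∈ Aᶜ, P G8 β t x8 τ = 1 := by
    rw [Finset.sum_add_sum_compl, P_sum]
  have h5 := sub_le_tv (P G8 β t x8) (P G8 β t y8) Aᶜ
  linarith

theorem main_lower {β : ℝ} (hβ : 0 ≤ β) {t : ℝ} (ht : 0 < t) (ht1 : t ≤ 1)
    (hM : Real.exp (-2 * β) ≤ t ^ 5) :
    Real.exp (-8) * (Real.exp (-2 * β) ^ 3 * t ^ 3) / 3840 ≤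
      1 - tv (P G8 β t top8) (P G8 β t bot8) := by
  set ε := Real.exp (-2 * β) with hε
  have hε0 : 0 < ε := Real.exp_pos _
  have he : Real.exp (-8) ≤ Real.exp (-(t * Fintype.card (Fin 8))) := by
    rw [Real.exp_le_exp, Fintype.card_fin]
    push_cast
    linarith
  have he0 := Real.exp_pos (-8)
  have h1 := P_apply_ge G8 hβ ht.le path1 bot8
  have h2 := P_apply_ge G8 hβ ht.le path2 top8
  rw [run1, cost1] at h1
  rw [run2, cost2] at h2
  have l1 : path1.length = 3 := rfl
  have l2 : path2.length = 5 := rfl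
  rw [l1] at h1
  rw [l2] at h2
  have f1 : ((Nat.factorial 3 : ℕ) : ℝ) = 6 := by norm_num [Nat.factorial]
  have f2 : ((Nat.factorial 5 : ℕ) : ℝ) = 120 := by norm_num [Nat.factorial]
  rw [f1, ← hε] at h1
  rw [f2, ← hε] at h2
  have ht5 : ε ≤ t ^ 2 := hM.trans (pow_le_pow_of_le_one ht.le ht1 (by norm_num))
  have g1 : Real.exp (-8) * (ε ^ 3 * t ^ 3) / 3840 ≤ P G8 β t bot8 z8 := by
    refine le_trans ?_ h1
    calc Real.exp (-8) * (ε ^ 3 * t ^ 3) / 3840 ≤ Real.exp (-8) * (ε ^ 3 * t ^ 3) / 48 := by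
          gcongr
          norm_num
      _ = Real.exp (-8) * ((6 : ℝ)⁻¹ * (t ^ 3 * (ε ^ 3 / 2 ^ 3))) := by ring
      _ ≤ _ := mul_le_mul_of_nonneg_right he (by positivity)
  have g2 : Real.exp (-8) * (ε ^ 3 * t ^ 3) / 3840 ≤ P G8 β t top8 z8 := by
    refine le_trans ?_ h2
    calc Real.exp (-8) * (ε ^ 3 * t ^ 3) / 3840
        = Real.exp (-8) * ((120 : ℝ)⁻¹ * (t ^ 3 * ε * (ε ^ 2 / 2 ^ 5))) := by ring
      _ ≤ Real.exp (-8) * ((120 : ℝ)⁻¹ * (t ^ 3 * t ^ 2 * (ε ^ 2 / 2 ^ 5))) := by
          gcongr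
      _ = Real.exp (-8) * ((120 : ℝ)⁻¹ * (t ^ 5 * (ε ^ 2 / 2 ^ 5))) := by ring
      _ ≤ _ := mul_le_mul_of_nonneg_right he (by positivity)
  have h3 := tv_le_one_sub (P_nonneg G8 β ht.le top8) (P_nonneg G8 β ht.le bot8)
    (P_sum G8 β t top8) (P_sum G8 β t bot8) g2 g1
  linarith

/-- Negative answer to the first question: there are a connected graph `G` with eight vertices and
a vertex `v` such that for every `δ > 0`, all small `t` and all large `β`, the total variation
distance `D` at time `t` between the starting states `all plus except v` and `all minus except v`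
is larger than the distance `D₀` between `all plus` and `all minus`; even
`1 - D ≤ δ (1 - D₀)`. -/
theorem result : ∃ (G : SimpleGraph (Fin 8)) (v : Fin 8), G.Connected ∧
    ∀ δ : ℝ, 0 < δ → ∃ t₀ : ℝ, 0 < t₀ ∧ ∀ t : ℝ, 0 < t → t ≤ t₀ →
      ∃ β₀ : ℝ, 0 ≤ β₀ ∧ ∀ β : ℝ, β₀ ≤ β →
        tv (P G β t (fun _ => true)) (P G β t (fun _ => false)) <
          tv (P G β t (Function.update (fun _ => true) v false))
            (P G β t (Function.update (fun _ => false) v true)) ∧
        1 - tv (P G β t (Function.update (fun _ => true) v false))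
            (P G β t (Function.update (fun _ => false) v true)) ≤
          δ * (1 - tv (P G β t (fun _ => true)) (P G β t (fun _ => false))) := by
  refine ⟨G8, 2, G8_connected, fun δ hδ => ?_⟩
  set δ' := min δ (1 / 2) with hδ'
  have hδ0 : 0 < δ' := lt_min hδ (by norm_num)
  have he := Real.exp_pos (-16)
  refine ⟨min 1 (δ' * Real.exp (-16) / 7680), lt_min one_pos (by positivity),
    fun t ht htt => ?_⟩
  have ht1 : t ≤ 1 := htt.trans (min_le_left _ _)
  have ht2 : t ≤ δ' * Real.exp (-16) / 7680 := htt.trans (min_le_right _ _)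
  refine ⟨max 0 (-(5 / 2) * Real.log t), le_max_left _ _, fun β hβ => ?_⟩
  have hβ0 : 0 ≤ β := (le_max_left _ _).trans hβ
  have hβ1 : -(5 / 2) * Real.log t ≤ β := (le_max_right _ _).trans hβ
  have hM : Real.exp (-2 * β) ≤ t ^ 5 := by
    have h1 : t ^ 5 = Real.exp (5 * Real.log t) := by
      rw [mul_comm, Real.exp_mul, Real.exp_log ht]
      norm_cast
    rw [h1, Real.exp_le_exp]
    linarith
  have hU := main_upper hβ0 ht ht1 hM
  have hL := main_lower hβ0 ht ht1 hM
  have e8 : Real.exp 8 * Real.exp (-16) = Real.exp (-8) := by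
    rw [← Real.exp_add]
    norm_num
  have hε := Real.exp_pos (-2 * β)
  have hm : 0 < Real.exp (-8) * (Real.exp (-2 * β) ^ 3 * t ^ 3) / 3840 := by
    have := Real.exp_pos (-8)
    positivity
  have key : 2 * (Real.exp 8 * (Real.exp (-2 * β) ^ 3 * t ^ 4)) ≤
      δ' * (Real.exp (-8) * (Real.exp (-2 * β) ^ 3 * t ^ 3) / 3840) := by
    have h8 := Real.exp_pos 8
    calc 2 * (Real.exp 8 * (Real.exp (-2 * β) ^ 3 * t ^ 4))
        = 2 * Real.exp 8 * Real.exp (-2 * β) ^ 3 * t ^ 3 * t := by ring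
      _ ≤ 2 * Real.exp 8 * Real.exp (-2 * β) ^ 3 * t ^ 3 *
          (δ' * Real.exp (-16) / 7680) := by gcongr
      _ = δ' * ((Real.exp 8 * Real.exp (-16)) * (Real.exp (-2 * β) ^ 3 * t ^ 3) / 3840) := by
          ring
      _ = _ := by rw [e8]
  have hD : 1 - tv (P G8 β t x8) (P G8 β t y8) ≤
      δ' * (Real.exp (-8) * (Real.exp (-2 * β) ^ 3 * t ^ 3) / 3840) := hU.trans key
  have hle1 : δ' ≤ δ := min_le_left _ _
  have hle2 : δ' ≤ 1 / 2 := min_le_right _ _
  have hlt : δ' * (Real.exp (-8) * (Real.exp (-2 * β) ^ 3 * t ^ 3) / 3840) <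
      1 - tv (P G8 β t top8) (P G8 β t bot8) := by
    nlinarith
  have hfin : 1 - tv (P G8 β t x8) (P G8 β t y8) ≤
      δ * (1 - tv (P G8 β t top8) (P G8 β t bot8)) := by
    refine hD.trans ?_
    exact mul_le_mul hle1 hL hm.le hδ.le
  have hfin2 : tv (P G8 β t top8) (P G8 β t bot8) < tv (P G8 β t x8) (P G8 β t y8) := by
    linarith
  exact ⟨hfin2, hfin⟩

end Pool.Agent.Results.MP_199736_pr.IsingDisproof
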