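import Mathlib

open scoped NNReal

namespace Pool.Agent.Results.MP_199736_pr.Q2Disproof

/-- Total variation distance `max_{A ⊆ Ω} |μ(A) - ν(A)|` on a finite set. -/
noncomputable def tv {Ω : Type} [Fintype Ω] [DecidableEq Ω] (μ ν : Ω → ℝ) : ℝ :=
  (Finset.univ : Finset (Finset Ω)).sup' ⟨∅, Finset.mem_univ ∅⟩
    (fun A => |∑ z ∈ A, μ z - ∑ z ∈ A, ν z|)

/-- `P t x y` (`t` in the time set `T`, which is `ℕ` or `ℝ≥0`) are the transition kernels of a
time-homogeneous Markov chain on the finite set `Ω`. -/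
structure IsMarkovChain {Ω T : Type} [Fintype Ω] [DecidableEq Ω] [AddMonoid T]
    [TopologicalSpace T] (P : T → Ω → Ω → ℝ) : Prop where
  nonneg : ∀ t x y, 0 ≤ P t x y
  row_sum : ∀ t x, ∑ y, P t x y = 1
  zero : ∀ x y, P 0 x y = if x = y then 1 else 0
  chapman : ∀ s t x z, P (s + t) x z = ∑ y, P s x y * P t y z
  continuous : ∀ x y, Continuous (fun t => P t x y)

/-- Every state can be reached from every state. -/
def IsIrreducible {Ω T : Type} (P : T → Ω → Ω → ℝ) : Prop :=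
  ∀ x y, ∃ t, 0 < P t x y

/-- Monotone: `P^t(x,A) ≤ P^t(y,A)` for `x ≤ y`, increasing `A` and all `t`. -/
def IsMonotone {Ω T : Type} [Fintype Ω] [PartialOrder Ω] (P : T → Ω → Ω → ℝ) : Prop :=
  ∀ (t : T) (x y : Ω), x ≤ y → ∀ A : Finset Ω, IsUpperSet (A : Set Ω) →
    ∑ z ∈ A, P t x z ≤ ∑ z ∈ A, P t y z

/-- Reversible with respect to some probability `π`. -/
def IsReversible {Ω T : Type} [Fintype Ω] (P : T → Ω → Ω → ℝ) : Prop :=
  ∃ π : Ω → ℝ, (∀ x, 0 ≤ π x) ∧ ∑ x, π x = 1 ∧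
    ∀ (t : T) (x y : Ω), π x * P t x y = π y * P t y x

/-- The weights `(2/3, 2/3, 1/3, 1/3)`. -/
noncomputable def nu : Fin 4 → ℝ := ![2/3, 2/3, 1/3, 1/3]

/-- The classes `{0,3}` and `{1,2}`. -/
def cls : Fin 4 → Bool := ![true, false, false, true]

/-- The two-parameter family of kernels. -/
noncomputable def Q (u v : ℝ) (x z : Fin 4) : ℝ :=
  (if x = z then u else 0) + nu z * (if cls x = cls z then (1 + v) / 2 - u else (1 - v) / 2)

lemma Q_nonneg {u v : ℝ} (h0 : 0 ≤ u) (h1 : 2 * u ≤ 1 + v) (h2 : v ≤ 1) (x z : Fin 4) :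
    0 ≤ Q u v x z := by
  have hn : ∀ z, 0 ≤ nu z := by intro z; fin_cases z <;> simp [nu] <;> norm_num
  unfold Q
  have := hn z
  split_ifs <;> nlinarith [mul_nonneg (hn z) (by linarith : (0:ℝ) ≤ (1 + v) / 2 - u),
    mul_nonneg (hn z) (by linarith : (0:ℝ) ≤ (1 - v) / 2)]

lemma Q_sum (u v : ℝ) (x : Fin 4) : ∑ z, Q u v x z = 1 := by
  fin_cases x <;> simp [Q, nu, cls, Fin.sum_univ_four] <;> ring

lemma Q_mul (u v u' v' : ℝ) (x z : Fin 4) :
    Q (u * u') (v * v') x z = ∑ y, Q u v x y * Q u' v' y z := by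
  fin_cases x <;> fin_cases z <;> simp [Q, nu, cls, Fin.sum_univ_four] <;> ring

lemma Q_one (x z : Fin 4) : Q 1 1 x z = if x = z then 1 else 0 := by
  unfold Q
  split_ifs <;> simp

lemma Q_rev (u v : ℝ) (x z : Fin 4) :
    (nu x / 2) * Q u v x z = (nu z / 2) * Q u v z x := by
  fin_cases x <;> fin_cases z <;> simp [Q, nu, cls] <;> ring

lemma Q_mono {u v : ℝ} (h0 : 0 ≤ v) (h1 : v ≤ u) (x y : Fin 4) (hxy : x ≤ y)
    (A : Finset (Fin 4)) (hA : IsUpperSet (A : Set (Fin 4))) :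
    ∑ z ∈ A, Q u v x z ≤ ∑ z ∈ A, Q u v y z := by
  have h01 : (0 : Fin 4) ∈ A → (1 : Fin 4) ∈ A := fun h => hA (by decide : (0 : Fin 4) ≤ 1) h
  have h12 : (1 : Fin 4) ∈ A → (2 : Fin 4) ∈ A := fun h => hA (by decide : (1 : Fin 4) ≤ 2) h
  have h23 : (2 : Fin 4) ∈ A → (3 : Fin 4) ∈ A := fun h => hA (by decide : (2 : Fin 4) ≤ 3) h
  have key : ∀ f : Fin 4 → ℝ, ∑ z ∈ A, f z = ∑ z, if z ∈ A then f z else 0 := by
    intro f
    rw [Finset.sum_ite_mem, Finset.univ_inter]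
  rw [key, key, Fin.sum_univ_four, Fin.sum_univ_four]
  by_cases a0 : (0 : Fin 4) ∈ A
  · have a1 := h01 a0
    have a2 := h12 a1
    have a3 := h23 a2
    have e1 := Q_sum u v x
    have e2 := Q_sum u v y
    rw [Fin.sum_univ_four] at e1 e2
    simp only [a0, a1, a2, a3, if_true]
    linarith
  · by_cases a1 : (1 : Fin 4) ∈ A
    · have a2 := h12 a1
      have a3 := h23 a2
      simp only [a0, a1, a2, a3, if_true, if_false]
      fin_cases x <;> fin_cases y <;> simp [Q, nu, cls] at hxy ⊢ <;> nlinarith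
    · by_cases a2 : (2 : Fin 4) ∈ A
      · have a3 := h23 a2
        simp only [a0, a1, a2, a3, if_true, if_false]
        fin_cases x <;> fin_cases y <;> simp [Q, nu, cls] at hxy ⊢ <;> nlinarith
      · by_cases a3 : (3 : Fin 4) ∈ A
        · simp only [a0, a1, a2, a3, if_true, if_false]
          fin_cases x <;> fin_cases y <;> simp [Q, nu, cls] at hxy ⊢ <;> nlinarith
        · simp only [a0, a1, a2, a3, if_false]
          simp

lemma tv_le_of {μ ν : Fin 4 → ℝ} {c : ℝ}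
    (h : ∀ A : Finset (Fin 4), |∑ z ∈ A, μ z - ∑ z ∈ A, ν z| ≤ c) : tv μ ν ≤ c := by
  unfold tv
  exact Finset.sup'_le _ _ (fun A _ => h A)

lemma le_tv (μ ν : Fin 4 → ℝ) (A : Finset (Fin 4)) :
    ∑ z ∈ A, μ z - ∑ z ∈ A, ν z ≤ tv μ ν := by
  unfold tv
  refine le_trans (le_abs_self _) ?_
  exact Finset.le_sup' (fun A => |∑ z ∈ A, μ z - ∑ z ∈ A, ν z|) (Finset.mem_univ A)

lemma tv_extreme {u v : ℝ} (h0 : 0 ≤ u) : tv (Q u v 3) (Q u v 0) ≤ u := by
  apply tv_le_of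
  intro A
  rw [← Finset.sum_sub_distrib]
  have key : ∀ z, Q u v 3 z - Q u v 0 z = (if z = 3 then u else 0) - (if z = 0 then u else 0) := by
    intro z
    fin_cases z <;> simp [Q, nu, cls]
  simp_rw [key]
  rw [Finset.sum_sub_distrib, Finset.sum_ite_eq', Finset.sum_ite_eq']
  split_ifs <;> simp [abs_of_nonneg h0, h0]

lemma tv_middle (u v : ℝ) : u + (u - v) / 3 ≤ tv (Q u v 3) (Q u v 2) := by
  refine le_trans (le_of_eq ?_) (le_tv _ _ {1, 3})
  simp [Q, nu, cls]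
  ring

/-- The discrete-time (lazy) chain. -/
noncomputable def PD (t : ℕ) : Fin 4 → Fin 4 → ℝ := Q ((1 / 2 : ℝ) ^ t) ((0 : ℝ) ^ t)

/-- The continuous-time chain. -/
noncomputable def PC (t : ℝ≥0) : Fin 4 → Fin 4 → ℝ :=
  Q (Real.exp (-(t : ℝ))) (Real.exp (-(t : ℝ)) ^ 2)

lemma nu_half_sum : ∑ x, nu x / 2 = 1 := by
  simp [nu, Fin.sum_univ_four]
  norm_num

lemma nu_half_nonneg (x : Fin 4) : 0 ≤ nu x / 2 := by
  fin_cases x <;> simp [nu] <;> norm_num

lemma discrete_bounds (t : ℕ) (ht : 0 < t) :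
    (0 : ℝ) ^ t = 0 ∧ (0 : ℝ) < (1 / 2 : ℝ) ^ t ∧ (1 / 2 : ℝ) ^ t ≤ 1 / 2 := by
  refine ⟨zero_pow ht.ne', by positivity, ?_⟩
  calc (1 / 2 : ℝ) ^ t ≤ (1 / 2 : ℝ) ^ 1 :=
        pow_le_pow_of_le_one (by norm_num) (by norm_num) ht
    _ = 1 / 2 := by norm_num

lemma discrete_conditions (t : ℕ) :
    0 ≤ (1 / 2 : ℝ) ^ t ∧ (0 : ℝ) ≤ (0 : ℝ) ^ t ∧ (0 : ℝ) ^ t ≤ (1 / 2 : ℝ) ^ t ∧
      (0 : ℝ) ^ t ≤ 1 ∧ 2 * (1 / 2 : ℝ) ^ t ≤ 1 + (0 : ℝ) ^ t := by
  rcases Nat.eq_zero_or_pos t with rfl | ht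
  · norm_num
  · obtain ⟨h1, h2, h3⟩ := discrete_bounds t ht
    rw [h1]
    refine ⟨h2.le, le_rfl, h2.le, by norm_num, by linarith⟩

lemma continuous_conditions (t : ℝ≥0) :
    0 < Real.exp (-(t : ℝ)) ∧ Real.exp (-(t : ℝ)) ≤ 1 := by
  refine ⟨Real.exp_pos _, ?_⟩
  rw [Real.exp_le_one_iff]
  have := t.coe_nonneg
  linarith

/-- **Negative answer to Q2**, in discrete and in continuous time, already on a totally ordered
set with four points, at all positive times. -/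
theorem result :
    (∃ P : ℕ → Fin 4 → Fin 4 → ℝ,
      IsMarkovChain P ∧ IsIrreducible P ∧ IsMonotone P ∧ IsReversible P ∧
        ∀ t, 0 < t → tv (P t ⊤) (P t ⊥) < tv (P t 3) (P t 2)) ∧
    (∃ P : ℝ≥0 → Fin 4 → Fin 4 → ℝ,
      IsMarkovChain P ∧ IsIrreducible P ∧ IsMonotone P ∧ IsReversible P ∧
        ∀ t, 0 < t → tv (P t ⊤) (P t ⊥) < tv (P t 3) (P t 2)) := by
  have htop : (⊤ : Fin 4) = 3 := rfl
  have hbot : (⊥ : Fin 4) = 0 := rfl
  constructor
  · refine ⟨PD, ⟨?_, ?_, ?_, ?_, ?_⟩, ?_, ?_, ?_, ?_⟩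
    · intro t x y
      obtain ⟨h1, h2, h3, h4, h5⟩ := discrete_conditions t
      exact Q_nonneg h1 h5 h4 x y
    · intro t x
      exact Q_sum _ _ x
    · intro x y
      simp only [PD, pow_zero]
      exact Q_one x y
    · intro s t x z
      simp only [PD, pow_add]
      exact Q_mul _ _ _ _ x z
    · intro x y
      exact continuous_of_discreteTopology
    · intro x y
      refine ⟨2, ?_⟩
      fin_cases x <;> fin_cases y <;> simp [PD, Q, nu, cls] <;> norm_num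
    · intro t x y hxy A hA
      obtain ⟨h1, h2, h3, h4, h5⟩ := discrete_conditions t
      exact Q_mono h2 h3 x y hxy A hA
    · exact ⟨fun x => nu x / 2, nu_half_nonneg, nu_half_sum, fun t x y => Q_rev _ _ x y⟩
    · intro t ht
      rw [htop, hbot]
      obtain ⟨h1, h2, h3⟩ := discrete_bounds t ht
      refine lt_of_le_of_lt (tv_extreme h2.le) (lt_of_lt_of_le ?_ (tv_middle _ _))
      rw [h1]
      linarith
  · refine ⟨PC, ⟨?_, ?_, ?_, ?_, ?_⟩, ?_, ?_, ?_, ?_⟩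
    · intro t x y
      obtain ⟨h1, h2⟩ := continuous_conditions t
      refine Q_nonneg h1.le ?_ ?_ x y
      · nlinarith [sq_nonneg (Real.exp (-(t : ℝ)) - 1)]
      · nlinarith
    · intro t x
      exact Q_sum _ _ x
    · intro x y
      simp only [PC, NNReal.coe_zero, neg_zero, Real.exp_zero, one_pow]
      exact Q_one x y
    · intro s t x z
      simp only [PC, NNReal.coe_add, neg_add, Real.exp_add, mul_pow]
      exact Q_mul _ _ _ _ x z
    · intro x y
      unfold PC Q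
      by_cases hxy : x = y <;> by_cases hc : cls x = cls y <;> simp only [hxy, hc, if_true, if_false] <;>
        fun_prop
    · intro x y
      refine ⟨1, ?_⟩
      have h1 : Real.exp (-1) < 1 := by
        rw [Real.exp_lt_one_iff]
        norm_num
      have h0 := Real.exp_pos (-1)
      have hn : 0 < nu y := by fin_cases y <;> simp [nu]
      unfold PC Q
      simp only [NNReal.coe_one]
      have e1 : 0 < (1 + Real.exp (-1) ^ 2) / 2 - Real.exp (-1) := by
        nlinarith [mul_pos (sub_pos.2 h1) (sub_pos.2 h1)]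
      have e2 : 0 < (1 - Real.exp (-1) ^ 2) / 2 := by
        nlinarith
      split_ifs <;> nlinarith [mul_pos hn e1, mul_pos hn e2]
    · intro t x y hxy A hA
      obtain ⟨h1, h2⟩ := continuous_conditions t
      refine Q_mono (by positivity) ?_ x y hxy A hA
      nlinarith
    · exact ⟨fun x => nu x / 2, nu_half_nonneg, nu_half_sum, fun t x y => Q_rev _ _ x y⟩
    · intro t ht
      rw [htop, hbot]
      have h1 : 0 < Real.exp (-(t : ℝ)) := Real.exp_pos _
      have h2 : Real.exp (-(t : ℝ)) < 1 := by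
        rw [Real.exp_lt_one_iff]
        have : (0 : ℝ) < t := by exact_mod_cast ht
        linarith
      refine lt_of_le_of_lt (tv_extreme h1.le) (lt_of_lt_of_le ?_ (tv_middle _ _))
      nlinarith

end Pool.Agent.Results.MP_199736_pr.Q2Disproof
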